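import Pool.Agent.helper43.BMH.Spec

set_option autoImplicit false

namespace Pool.Agent.helper43.BMH

open scoped ENNReal
open Pool.Agent.helper75.BM (nrm N2 L dBM)

lemma HO2_real (r : ℝ) (hr : 2 < r) (d : ℕ) (y : Fin d → ℝ) (N : ℝ) (hN : 0 ≤ N)
    (hNr : N ^ r = ∑ i, |y i| ^ r) :
    Real.sqrt (∑ i, y i ^ 2) ≤ (∑ i, |y i|) ^ (1 - 1 / (2 * (1 - r⁻¹))) * N ^ (1 / (2 * (1 - r⁻¹))) := by
  have hr0 : 0 < r := by linarith
  have hri : r⁻¹ < 1 / 2 := by
    rw [one_div]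
    exact inv_strictAnti₀ (by norm_num) hr
  have hri0 : 0 < r⁻¹ := by positivity
  obtain ⟨t, ht⟩ : ∃ t : ℝ, t = 1 / (2 * (1 - r⁻¹)) := ⟨_, rfl⟩
  rw [← ht]
  have h1r : 0 < 1 - r⁻¹ := by linarith
  have ht0 : 0 < t := by rw [ht]; positivity
  have hteq : 2 * t * (1 - r⁻¹) = 1 := by
    rw [ht]
    have h2 : 2 * (1 - r⁻¹) ≠ 0 := by positivity
    calc 2 * (1 / (2 * (1 - r⁻¹))) * (1 - r⁻¹) = (2 * (1 - r⁻¹)) / (2 * (1 - r⁻¹)) := by ring
      _ = 1 := div_self h2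
  have ht1 : t < 1 := by nlinarith
  have hS0 : 0 ≤ ∑ i, |y i| := Finset.sum_nonneg fun i _ => abs_nonneg _
  have hpos1 : 0 < 2 * (1 - t) := by linarith
  have hpos2 : 0 < 2 * t / r := by positivity
  have hsumeq : 2 * (1 - t) + 2 * t / r = 1 := by
    have : 2 * t / r = 2 * t * r⁻¹ := by rw [div_eq_mul_inv]
    rw [this]
    linarith
  have hconj : (1 / (2 * (1 - t))).HolderConjugate (1 / (2 * t / r)) := by
    rw [Real.holderConjugate_iff]
    refine ⟨?_, ?_⟩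
    · rw [one_lt_div hpos1]
      linarith
    · rw [one_div, one_div, inv_inv, inv_inv]
      exact hsumeq
  have hmain := Real.inner_le_Lp_mul_Lq_of_nonneg Finset.univ (f := fun i => |y i| ^ (2 * (1 - t)))
    (g := fun i => |y i| ^ (2 * t)) hconj (fun i _ => Real.rpow_nonneg (abs_nonneg _) _)
    (fun i _ => Real.rpow_nonneg (abs_nonneg _) _)
  have e1 : ∀ i, |y i| ^ (2 * (1 - t)) * |y i| ^ (2 * t) = y i ^ 2 := by
    intro i
    rw [← Real.rpow_add_of_nonneg (abs_nonneg _) hpos1.le (by positivity)]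
    have : 2 * (1 - t) + 2 * t = ((2 : ℕ) : ℝ) := by push_cast; ring
    rw [this, Real.rpow_natCast, sq_abs]
  have e2 : ∀ i, (|y i| ^ (2 * (1 - t))) ^ (1 / (2 * (1 - t))) = |y i| := by
    intro i
    rw [← Real.rpow_mul (abs_nonneg _), mul_one_div_cancel hpos1.ne', Real.rpow_one]
  have e3 : ∀ i, (|y i| ^ (2 * t)) ^ (1 / (2 * t / r)) = |y i| ^ r := by
    intro i
    rw [← Real.rpow_mul (abs_nonneg _)]
    congr 1
    field_simp
  simp only [e1, e2, e3] at hmain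
  rw [one_div_one_div, one_div_one_div, ← hNr, ← Real.rpow_mul hN] at hmain
  have e4 : r * (2 * t / r) = 2 * t := by field_simp
  rw [e4] at hmain
  rw [Real.sqrt_le_left (mul_nonneg (Real.rpow_nonneg hS0 _) (Real.rpow_nonneg hN _))]
  refine hmain.trans (le_of_eq ?_)
  rw [mul_pow, ← Real.rpow_natCast (_ ^ (1 - t)) 2, ← Real.rpow_natCast (_ ^ t) 2,
    ← Real.rpow_mul hS0, ← Real.rpow_mul hN]
  congr 2
  · push_cast
    ring
  · push_cast
    ring

theorem t_ho2 : HO2 := by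
  intro q _ hq d y
  by_cases hqt : q = ⊤
  · subst hqt
    have h0 : (1 / (⊤ : ℝ≥0∞)).toReal = 0 := by simp
    rw [h0]
    have hS0 : 0 ≤ ∑ i, |y i| := Finset.sum_nonneg fun i _ => abs_nonneg _
    have hN := Pool.Agent.helper75.BM.nrm_nonneg (p := ⊤) y
    have e1 : (1 : ℝ) - 1 / (2 * (1 - 0)) = 1 / 2 := by norm_num
    have e2 : (1 : ℝ) / (2 * (1 - 0)) = 1 / 2 := by norm_num
    rw [e1, e2, ← Real.sqrt_eq_rpow, ← Real.sqrt_eq_rpow, ← Real.sqrt_mul hS0]
    refine Real.sqrt_le_sqrt ?_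
    rw [Finset.sum_mul]
    refine Finset.sum_le_sum fun i _ => ?_
    have h1 := Pool.Agent.helper75.BM.coord_le (p := ⊤) y i
    rw [← sq_abs, sq]
    exact mul_le_mul_of_nonneg_left h1 (abs_nonneg _)
  · have h2 : 2 < q.toReal := by
      have := (ENNReal.toReal_lt_toReal (by norm_num) hqt).2 hq
      simpa using this
    have h3 := HO2_real q.toReal h2 d y (nrm q y) (Pool.Agent.helper75.BM.nrm_nonneg y)
      (Pool.Agent.helper75.BM.nrm_rpow hqt y)
    have h4 : (1 / q).toReal = (q.toReal)⁻¹ := by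
      rw [one_div, ENNReal.toReal_inv]
    rw [h4]
    exact h3

end Pool.Agent.helper43.BMH
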